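import Pool.Agent.R784.PT.Fin
import Pool.Agent.R784.PT.C
import Pool.Agent.W852.FG.Pos
import Pool.Agent.W591.FG.Key
import Pool.Agent.W591.FG.Wpos

set_option autoImplicit false

/-!
MP_8c378f, Q1 (the answer is negative): for the null recurrent biased walk (`λ = m`) on almost
every infinite Galton-Watson tree the directed polymer has `β_c = 0`: for every `β > 0` the
partition functions `W_n(β)` tend to `0` almost surely.
-/

namespace Pool.Agent.Results.MP_8c378f_pr.CriticalBetaZero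

open MeasureTheory ProbabilityTheory Filter Topology
open FrogGW (Env InTree Survive GW)
open Pool.Agent.R784.PT
open scoped ENNReal

/-- The law of the disorder: the variables `ω i x` (time `i + 1`, vertex `x`) are independent
with law `ν`. -/
noncomputable def Disorder (ν : Measure ℝ) : Measure (ℕ → List ℕ → ℝ) :=
  Measure.infinitePi fun _ : ℕ => Measure.infinitePi fun _ : List ℕ => ν

/-- Weak disorder at `β`: almost surely `W_n(β)` has a positive limit. -/
def WeakDisorder (ν : Measure ℝ) (lam : ℝ) (Z : Env) (β : ℝ) : Prop :=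
  ∀ᵐ ω ∂(Disorder ν), ∃ w : ℝ, 0 < w ∧ Tendsto (fun n => Wn ν lam Z β n ω) atTop (𝓝 w)

/-- The critical inverse temperature. -/
noncomputable def betaC (ν : Measure ℝ) (lam : ℝ) (Z : Env) : ℝ :=
  sSup {β : ℝ | 0 ≤ β ∧ WeakDisorder ν lam Z β}

/-- **MP_8c378f, Q1: negative answer.** -/
theorem result (p : Measure ℕ) [IsProbabilityMeasure p] (m : ℝ) (hm : 1 < m)
    (hp : ∫⁻ k, (k : ℝ≥0∞) ∂p = ENNReal.ofReal m) (ν : Measure ℝ) [IsProbabilityMeasure ν]
    (hν : ∀ b : ℝ, Integrable (fun t => Real.exp (b * t)) ν)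
    (hc : ∀ c : ℝ, ν ≠ Measure.dirac c) :
    MeasurableSet Survive ∧ GW p Survive ≠ 0 ∧
    ∀ᵐ Z ∂(ProbabilityTheory.cond (GW p) Survive),
      (∀ β : ℝ, 0 < β →
        ∀ᵐ ω ∂(Disorder ν), Tendsto (fun n => Wn ν m Z β n ω) atTop (𝓝 0)) ∧
      {β : ℝ | 0 ≤ β ∧ WeakDisorder ν m Z β} = {0} ∧ betaC ν m Z = 0 := by
  have hms := FrogGW.W591.meas_survive
  have hp1 : 1 < ∫⁻ k, (k : ℝ≥0∞) ∂p := by
    rw [hp]
    rw [← ENNReal.ofReal_one]
    exact (ENNReal.ofReal_lt_ofReal_iff (by linarith)).2 hm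
  have hTr : FrogGW.TaskTree := Pool.Agent.W782.FG.tree
  have hpos : GW p Survive ≠ 0 :=
    FrogGW.survive_pos FrogGW.W591.taskW (FrogGW.W591.taskWpos hTr) p hp1
  refine ⟨hms, hpos, ?_⟩
  have key : ∀ᵐ Z ∂(GW p), Z ∈ Survive →
      (∀ β : ℝ, 0 < β →
        ∀ᵐ ω ∂(Disorder ν), Tendsto (fun n => Wn ν m Z β n ω) atTop (𝓝 0)) ∧
      {β : ℝ | 0 ≤ β ∧ WeakDisorder ν m Z β} = {0} ∧ betaC ν m Z = 0 := by
    filter_upwards [c p m hm hp] with Z hZ hS
    obtain ⟨C, hC⟩ := hZ
    have h1 := one_le_of_survive hS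
    have hmain : ∀ β : ℝ, 0 < β →
        ∀ᵐ ω ∂(Disorder ν), Tendsto (fun n => Wn ν m Z β n ω) atTop (𝓝 0) :=
      fun β hβ => quenched hν hc hm h1 hC hβ
    have hset : {β : ℝ | 0 ≤ β ∧ WeakDisorder ν m Z β} = {0} := by
      ext β
      simp only [Set.mem_ofPred_eq, Set.mem_singleton_iff]
      constructor
      · rintro ⟨h0, hw⟩
        by_contra hne
        have hβ : 0 < β := lt_of_le_of_ne h0 (Ne.symm hne)
        haveI : IsProbabilityMeasure (Disorder ν) := by unfold Disorder; infer_instance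
        obtain ⟨ω, ⟨w, hw0, hw1⟩, h2⟩ := (hw.and (hmain β hβ)).exists
        have := tendsto_nhds_unique hw1 h2
        exact hw0.ne' this
      · rintro rfl
        refine ⟨le_refl _, Filter.Eventually.of_forall fun ω => ⟨1, one_pos, ?_⟩⟩
        simp only [Wn_zero (lt_trans one_pos hm) h1]
        exact tendsto_const_nhds
    refine ⟨hmain, hset, ?_⟩
    unfold betaC
    rw [hset]
    exact csSup_singleton 0
  unfold ProbabilityTheory.cond
  exact Measure.ae_smul_measure ((ae_restrict_iff' hms).2 key) _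

end Pool.Agent.Results.MP_8c378f_pr.CriticalBetaZero
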